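import Pool.Agent.H446Z.Harm.Main

set_option autoImplicit false

namespace Pool.Agent.Results.MP_267b52_gt.ASlitCylinder

open Pool.Agent.H446Z.Harm
open scoped Manifold ContDiff

universe u

/-- There are a connected Riemannian surface `(N, h)` and a connected open set `V` in it such that
every harmonic map from a closed connected Riemannian manifold with image in `V` is constant,
but `V` carries no strictly convex function. -/
theorem result : ∃ (N : Type) (_ : TopologicalSpace N) (_ : T2Space N)
    (_ : SecondCountableTopology N) (_ : ConnectedSpace N) (_ : ChartedSpace (Euc 2) N)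
    (_ : IsManifold (𝓡 2) ∞ N) (h : RMetric (Euc 2) N) (V : Set N),
    IsOpen V ∧ IsConnected V ∧ PropII.{u} h V ∧ ¬ PropI h V :=
  ⟨Euc 2, inferInstance, inferInstance, inferInstance, inferInstance, inferInstance, inferInstance,
    hN, V, isOpen_V, isConnected_V, propII, not_propI⟩

end Pool.Agent.Results.MP_267b52_gt.ASlitCylinder
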